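import Mathlib
import Pool.Agent.Y771.RP.Rel

/-!
# Linear relations between polynomials in independent functions, at arguments in a number field
-/

set_option autoImplicit false

namespace Pool.Agent.X142.MH

open Filter Topology MvPolynomial NumberField

lemma exists_denom (S : Finset ℚ) : ∃ D : ℕ, D ≠ 0 ∧ ∀ q ∈ S, ∃ n : ℤ, (D : ℚ) * q = n := by
  classical
  induction S using Finset.induction_on with
  | empty => exact ⟨1, one_ne_zero, fun q hq => absurd hq (Finset.notMem_empty _)⟩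
  | insert a S ha ih =>
    obtain ⟨D, hD, h⟩ := ih
    refine ⟨a.den * D, mul_ne_zero a.den_nz hD, fun q hq => ?_⟩
    rcases Finset.mem_insert.1 hq with rfl | hq
    · refine ⟨D * q.num, ?_⟩
      push_cast
      have h1 : (q.den : ℚ) * q = q.num := by
        rw [mul_comm]
        exact Rat.mul_den_eq_num q
      linear_combination (D : ℚ) * h1
    · obtain ⟨n, hn⟩ := h q hq
      refine ⟨a.den * n, ?_⟩
      push_cast
      linear_combination (a.den : ℚ) * hn

/-- The number of elements `x` of a number field at which the linearly independent polynomials `G_w` in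
the values of the independent functions `f_y` satisfy a near relation. -/
theorem fewWords {κ : Type} [Fintype κ] (f : κ → ℂ → ℂ) (L : Set ℂ) (hL : IsCompact L)
    (han : ∀ y, ∀ t ∈ L, AnalyticAt ℂ (f y) t) (hind : ∀ t ∈ L, Pool.Agent.Y124.LocInd f t)
    {r : Type} [Fintype r] (G : r → MvPolynomial κ ℚ)
    (hG : ∀ c : r → ℂ, ∑ w, C (c w) * MvPolynomial.map (algebraMap ℚ ℂ) (G w) = 0 → c = 0)
    (m g : ℕ) (A ε : ℝ) (hε : 0 < ε) :
    ∃ B C₁ T₀ : ℝ, ∀ (F : Type) [Field F] [NumberField F], Module.finrank ℚ F ≤ m →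
      ∀ (ι : F →+* ℂ) (ξ : Fin g → ℂ) (T : ℝ), T₀ ≤ T →
      (({x : F | ι x ∈ L ∧
        (∃ a c : 𝓞 F, c ≠ 0 ∧ (∀ φ : F →+* ℂ, ‖φ a‖ ≤ T ∧ ‖φ c‖ ≤ T) ∧ x = a / c) ∧
        ∃ c : r → Fin g → 𝓞 F, (∀ w i (φ : F →+* ℂ), ‖φ (c w i)‖ ≤ T ^ A) ∧
          ∃ w₀, (∑ i, ξ i * ι (c w₀ i)) ≠ 0 ∧
            ‖∑ w, (∑ i, ξ i * ι (c w i)) * aeval (fun y => f y (ι x)) (G w)‖ ≤
              T ^ (-B) * ‖∑ i, ξ i * ι (c w₀ i)‖}.ncard : ℕ) : ℝ) ≤ C₁ * T ^ ε := by
  classical
  -- all monomials
  set M : Finset (κ →₀ ℕ) := Finset.univ.biUnion fun w => (G w).support with hM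
  have hMw : ∀ w s, s ∉ M → (G w).coeff s = 0 := by
    intro w s hs
    by_contra h
    exact hs (Finset.mem_biUnion.2 ⟨w, Finset.mem_univ _, mem_support_iff.2 h⟩)
  obtain ⟨D, hD, hDn⟩ := exists_denom ((Finset.univ ×ˢ M).image fun p : r × (κ →₀ ℕ) => (G p.1).coeff p.2)
  have hnn : ∀ w s, ∃ n : ℤ, (D : ℚ) * (G w).coeff s = n := by
    intro w s
    by_cases hs : s ∈ M
    · exact hDn _ (Finset.mem_image.2 ⟨(w, s), Finset.mem_product.2 ⟨Finset.mem_univ _, hs⟩, rfl⟩)
    · exact ⟨0, by rw [hMw w s hs]; simp⟩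
  choose n hn using hnn
  have hDC : (D : ℂ) ≠ 0 := by exact_mod_cast hD
  -- degrees
  set d : ℕ := Finset.univ.sup fun w : r => (G w).totalDegree with hd
  -- a bound for the integers `n`
  set N0 : ℝ := ∑ s ∈ M, ∑ w, |(n w s : ℝ)| with hN0
  have hN0s : ∀ s ∈ M, ∑ w, |(n w s : ℝ)| ≤ N0 := fun s hs =>
    Finset.single_le_sum (f := fun s => ∑ w, |(n w s : ℝ)|)
      (fun _ _ => Finset.sum_nonneg fun _ _ => abs_nonneg _) hs
  -- the coefficient map
  set Λ : (r → ℂ) →ₗ[ℂ] (M → ℂ) :=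
    { toFun := fun c s => ∑ w, c w * (((G w).coeff (s : κ →₀ ℕ) : ℚ) : ℂ)
      map_add' := fun c c' => by
        funext s
        simp only [Pi.add_apply, add_mul, Finset.sum_add_distrib]
      map_smul' := fun a c => by
        funext s
        simp only [Pi.smul_apply, smul_eq_mul, RingHom.id_apply, Finset.mul_sum, mul_assoc] } with hΛ
  have hcoefP : ∀ (c : r → ℂ) (s : κ →₀ ℕ),
      (∑ w, C (c w) * MvPolynomial.map (algebraMap ℚ ℂ) (G w)).coeff s =
        ∑ w, c w * (((G w).coeff s : ℚ) : ℂ) := by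
    intro c s
    rw [coeff_sum]
    refine Finset.sum_congr rfl fun w _ => ?_
    rw [coeff_C_mul, coeff_map]
    rfl
  have hker : LinearMap.ker Λ = ⊥ := by
    rw [LinearMap.ker_eq_bot']
    intro c hc
    apply hG
    ext s
    rw [hcoefP, coeff_zero]
    by_cases hs : s ∈ M
    · exact congrFun hc ⟨s, hs⟩
    · refine Finset.sum_eq_zero fun w _ => ?_
      rw [hMw w s hs, Rat.cast_zero, mul_zero]
  obtain ⟨K, hK0, hK⟩ := Λ.exists_antilipschitzWith hker
  have hKb : ∀ c : r → ℂ, ‖c‖ ≤ K * ‖Λ c‖ := by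
    intro c
    have := hK.le_mul_dist c 0
    rwa [dist_zero_right, map_zero, dist_zero_right] at this
  obtain ⟨B, C₁, T₀, H⟩ := Pool.Agent.Y771.RP.main' m 1 g d f L hL han hind (A + 1) ε hε
  refine ⟨B + 1, |C₁|, max (max T₀ 2) (max N0 K), ?_⟩
  intro F _ _ hF ι ξ T hT
  have hTT₀ : T₀ ≤ T := (le_max_left _ _).trans ((le_max_left _ _).trans hT)
  have hT2 : 2 ≤ T := (le_max_right _ _).trans ((le_max_left _ _).trans hT)
  have hTN : N0 ≤ T := (le_max_left _ _).trans ((le_max_right _ _).trans hT)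
  have hTK : (K : ℝ) ≤ T := (le_max_right _ _).trans ((le_max_right _ _).trans hT)
  have hT0 : 0 < T := by linarith
  obtain ⟨hfin, hcard⟩ := H F hF ι (fun i => ξ i / D) T hTT₀
  rw [Nat.sub_self, pow_zero, mul_one] at hcard
  set X : Set F := {x : F | ι x ∈ L ∧
        (∃ a c : 𝓞 F, c ≠ 0 ∧ (∀ φ : F →+* ℂ, ‖φ a‖ ≤ T ∧ ‖φ c‖ ≤ T) ∧ x = a / c) ∧
        ∃ c : r → Fin g → 𝓞 F, (∀ w i (φ : F →+* ℂ), ‖φ (c w i)‖ ≤ T ^ A) ∧
          ∃ w₀, (∑ i, ξ i * ι (c w₀ i)) ≠ 0 ∧
            ‖∑ w, (∑ i, ξ i * ι (c w i)) * aeval (fun y => f y (ι x)) (G w)‖ ≤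
              T ^ (-(B + 1)) * ‖∑ i, ξ i * ι (c w₀ i)‖} with hX
  have hmem : ∀ x ∈ X, (fun _ => x : Fin 1 → F) ∈
      Pool.Agent.Y771.RP.Exc 1 d F ι (fun i => ξ i / D) (fun _ => f) (fun _ => L) (A + 1) B T := by
    rintro x ⟨hxL, hxh, c, hcA, w₀, hw₀, hs⟩
    refine ⟨fun _ => ⟨hxL, hxh⟩, ?_⟩
    have hinj : Function.Injective (fun y : κ => ((0 : Fin 1), y)) := fun a b h => (Prod.mk.inj h).2
    set a : r → ℂ := fun w => ∑ i, ξ i * ι (c w i) with ha
    set P0 : MvPolynomial κ ℂ := ∑ w, C (a w) * MvPolynomial.map (algebraMap ℚ ℂ) (G w) with hP0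
    set P : MvPolynomial (Fin 1 × κ) ℂ := rename (fun y => ((0 : Fin 1), y)) P0 with hP
    have hcoef : ∀ s, P.coeff (s.mapDomain fun y => ((0 : Fin 1), y)) = ∑ w, a w * (((G w).coeff s : ℚ) : ℂ) := by
      intro s
      rw [hP, coeff_rename_mapDomain _ hinj, hP0, hcoefP]
    -- the large coefficient
    have hΛ0 : ‖a‖ ≤ K * ‖Λ a‖ := hKb a
    have ha0 : 0 < ‖a‖ := lt_of_lt_of_le (norm_pos_iff.2 hw₀) (norm_le_pi_norm a w₀)
    have hΛpos : 0 < ‖Λ a‖ := by
      by_contra h
      have h1 : ‖Λ a‖ = 0 := le_antisymm (not_lt.1 h) (norm_nonneg _)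
      rw [h1, mul_zero] at hΛ0
      linarith
    obtain ⟨s, hsM⟩ : ∃ s : M, ‖Λ a s‖ = ‖Λ a‖ := by
      have hne : Nonempty M := by
        by_contra h
        rw [not_nonempty_iff] at h
        have h1 : Λ a = 0 := funext fun s => h.elim s
        rw [h1, norm_zero] at hΛpos
        exact lt_irrefl _ hΛpos
      obtain ⟨s, _, hs⟩ := Finset.exists_max_image Finset.univ (fun s : M => ‖Λ a s‖)
        ⟨hne.some, Finset.mem_univ _⟩
      refine ⟨s, le_antisymm (norm_le_pi_norm _ s) ?_⟩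
      exact (pi_norm_le_iff_of_nonneg (norm_nonneg _)).2 fun s' => hs s' (Finset.mem_univ _)
    have hsv : P.coeff ((s : κ →₀ ℕ).mapDomain fun y => ((0 : Fin 1), y)) = Λ a s := hcoef s
    refine ⟨P, ?_, ?_, (s : κ →₀ ℕ).mapDomain fun y => ((0 : Fin 1), y), ?_, ?_⟩
    · rintro ⟨j, y⟩
      have hj : j = 0 := Subsingleton.elim _ _
      rw [hj, hP, degreeOf_rename_of_injective hinj]
      refine (degreeOf_le_totalDegree _ _).trans ?_
      rw [hP0]
      refine (totalDegree_finsetSum _ _).trans ?_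
      refine Finset.sup_le fun w _ => ?_
      refine (totalDegree_mul _ _).trans ?_
      rw [totalDegree_C, zero_add]
      have h9 : (MvPolynomial.map (algebraMap ℚ ℂ) (G w)).totalDegree ≤ (G w).totalDegree :=
        Finset.sup_mono (support_map_subset _ _)
      exact h9.trans (Finset.le_sup (f := fun w : r => (G w).totalDegree) (Finset.mem_univ w))
    · intro u
      by_cases hu : ∃ s', Finsupp.mapDomain (fun y => ((0 : Fin 1), y)) s' = u
      · obtain ⟨s', rfl⟩ := hu
        by_cases hs' : s' ∈ M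
        · refine ⟨fun i => ∑ w, c w i * (n w s' : 𝓞 F), ?_, ?_⟩
          · intro i φ
            have h1 : φ ((∑ w, c w i * (n w s' : 𝓞 F) : 𝓞 F) : F) = ∑ w, φ (c w i) * (n w s' : ℂ) := by
              rw [show ((∑ w, c w i * (n w s' : 𝓞 F) : 𝓞 F) : F) = ∑ w, (c w i : F) * (n w s' : F) by
                simp [map_sum]]
              rw [map_sum]
              refine Finset.sum_congr rfl fun w _ => ?_
              rw [map_mul, map_intCast]
            rw [h1]
            refine (norm_sum_le _ _).trans ?_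
            calc ∑ w, ‖φ (c w i) * (n w s' : ℂ)‖ ≤ ∑ w, T ^ A * |(n w s' : ℝ)| := by
                  refine Finset.sum_le_sum fun w _ => ?_
                  rw [norm_mul, Complex.norm_intCast]
                  exact mul_le_mul_of_nonneg_right (hcA w i φ) (abs_nonneg _)
              _ = T ^ A * ∑ w, |(n w s' : ℝ)| := by rw [Finset.mul_sum]
              _ ≤ T ^ A * T := mul_le_mul_of_nonneg_left ((hN0s s' hs').trans hTN)
                  (Real.rpow_pos_of_pos hT0 _).le
              _ = T ^ (A + 1) := by rw [Real.rpow_add hT0, Real.rpow_one]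
          · rw [hcoef]
            have h1 : ∀ i, ι ((∑ w, c w i * (n w s' : 𝓞 F) : 𝓞 F) : F) = ∑ w, ι (c w i) * (n w s' : ℂ) := by
              intro i
              rw [show ((∑ w, c w i * (n w s' : 𝓞 F) : 𝓞 F) : F) = ∑ w, (c w i : F) * (n w s' : F) by
                simp [map_sum]]
              rw [map_sum]
              refine Finset.sum_congr rfl fun w _ => ?_
              rw [map_mul, map_intCast]
            simp only [h1]
            have h2 : ∀ w, (((G w).coeff s' : ℚ) : ℂ) = (n w s' : ℂ) / D := by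
              intro w
              have h3 : ((D : ℚ) * (G w).coeff s' : ℚ) = (n w s' : ℤ) := hn w s'
              have h4 : (D : ℂ) * (((G w).coeff s' : ℚ) : ℂ) = (n w s' : ℂ) := by exact_mod_cast h3
              rw [← h4]
              field_simp
            have h5 : ∀ i, ξ i / (D : ℂ) * ∑ w, ι (c w i) * (n w s' : ℂ) =
                ∑ w, ξ i * ι (c w i) * ((n w s' : ℂ) / D) := by
              intro i
              rw [Finset.mul_sum]
              refine Finset.sum_congr rfl fun w _ => ?_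
              ring
            rw [Finset.sum_congr rfl fun i _ => h5 i, Finset.sum_comm]
            refine Finset.sum_congr rfl fun w _ => ?_
            rw [h2 w, ha]
            simp only
            rw [Finset.sum_mul]
        · refine ⟨fun _ => 0, ?_, ?_⟩
          · intro i φ
            have h1 : φ (((0 : 𝓞 F)) : F) = 0 := by simp
            rw [h1, norm_zero]
            exact (Real.rpow_pos_of_pos hT0 _).le
          · rw [hcoef]
            have h1 : ∑ w, a w * (((G w).coeff s' : ℚ) : ℂ) = 0 := by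
              refine Finset.sum_eq_zero fun w _ => ?_
              rw [hMw w s' hs', Rat.cast_zero, mul_zero]
            rw [h1]
            simp
      · refine ⟨fun _ => 0, ?_, ?_⟩
        · intro i φ
          have h1 : φ (((0 : 𝓞 F)) : F) = 0 := by simp
          rw [h1, norm_zero]
          exact (Real.rpow_pos_of_pos hT0 _).le
        · rw [hP, coeff_rename_eq_zero _ _ _ fun u' hu' => absurd ⟨u', hu'⟩ hu]
          simp
    · rw [hsv]
      intro h
      rw [h, norm_zero] at hsM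
      linarith
    · rw [hsv, hsM]
      have h1 : aeval (fun y : Fin 1 × κ => f y.2 (ι x)) P = ∑ w, a w * aeval (fun y => f y (ι x)) (G w) := by
        rw [hP, aeval_rename, hP0, map_sum]
        refine Finset.sum_congr rfl fun w _ => ?_
        rw [map_mul, algHom_C, aeval_map_algebraMap]
        rfl
      rw [h1]
      refine hs.trans ?_
      have h2 : ‖a w₀‖ ≤ T * ‖Λ a‖ :=
        (norm_le_pi_norm a w₀).trans (hΛ0.trans (mul_le_mul_of_nonneg_right hTK (norm_nonneg _)))
      calc T ^ (-(B + 1)) * ‖a w₀‖ ≤ T ^ (-(B + 1)) * (T * ‖Λ a‖) :=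
            mul_le_mul_of_nonneg_left h2 (Real.rpow_pos_of_pos hT0 _).le
        _ = T ^ (-B) * ‖Λ a‖ := by
            rw [neg_add, Real.rpow_add hT0, Real.rpow_neg_one]
            field_simp
  have hinjX : Set.InjOn (fun x : F => (fun _ => x : Fin 1 → F)) X := fun x _ y _ h => congrFun h 0
  have h3 : X.ncard ≤ (Pool.Agent.Y771.RP.Exc 1 d F ι (fun i => ξ i / D) (fun _ => f) (fun _ => L)
      (A + 1) B T).ncard := Set.ncard_le_ncard_of_injOn (fun x : F => (fun _ => x : Fin 1 → F)) hmem hinjX hfin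
  have h4 : (X.ncard : ℝ) ≤ _ := (Nat.cast_le.2 h3).trans hcard
  exact h4.trans (mul_le_mul_of_nonneg_right (le_abs_self C₁) (Real.rpow_pos_of_pos hT0 _).le)

end Pool.Agent.X142.MH
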